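import Mathlib

set_option autoImplicit false

/-!
# The maximum number of `r`-cliques given the number of `p`-cliques: a disproof

Let `G` be `K^s` together with two further non-adjacent vertices, one joined to `t` and the other to
`r - 1` vertices of the `K^s`. Then `G` has `f_p(s, t) + (r-1).choose (p-1)` copies of `K^p` and
`f_r(s, t) + 1` copies of `K^r`. Since `f_p(s, t + 1) - f_p(s, t) = t.choose (p - 2)`, the equality
asked for fails as soon as `(r-1).choose (p-1) < t.choose (p-2)`, for instance for
`(p, r, s, t) = (3, 4, 5, 4)`, and for every `3 ≤ p < r` it fails for all large `t` and all `s > t`.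
-/

namespace Pool.Agent.Results.MP_8926dc_co.CliqueCounts

open Finset

/-- `k_j(G)`: the number of `j`-element vertex sets spanning a clique. -/
noncomputable def k {V : Type} (j : ℕ) (G : SimpleGraph V) : ℕ :=
  {S : Finset V | G.IsNClique j S}.ncard

/-- `f_j(s, t) = (s choose j) + (t choose (j - 1))`, for `j ≥ 1`. -/
def f (j s t : ℕ) : ℕ := s.choose j + t.choose (j - 1)

/-- `K^s` together with two non-adjacent vertices `inr true` and `inr false`, joined to the first `t`
and the first `u` vertices of the `K^s`. -/
def graph (s t u : ℕ) : SimpleGraph (Fin s ⊕ Bool) where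
  Adj x y := match x, y with
    | Sum.inl a, Sum.inl b => a ≠ b
    | Sum.inl a, Sum.inr c => a.val < (if c then t else u)
    | Sum.inr c, Sum.inl a => a.val < (if c then t else u)
    | Sum.inr _, Sum.inr _ => False
  symm := ⟨by
    rintro (a | c) (b | d) h
    · exact Ne.symm h
    · exact h
    · exact h
    · exact h⟩
  loopless := ⟨by
    rintro (a | c) h
    · exact h rfl
    · exact h⟩

/-- the vertices of `K^s` joined to the extra vertex `c` -/
def low (s t u : ℕ) (c : Bool) : Finset (Fin s) := univ.filter fun a => a.val < (if c then t else u)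

lemma low_card (s t u : ℕ) (hts : t ≤ s) (hus : u ≤ s) (c : Bool) :
    (low s t u c).card = if c then t else u := by
  unfold low
  have key : ∀ m, m ≤ s → (univ.filter fun a : Fin s => a.val < m).card = m := by
    intro m hm
    rw [Fin.card_filter_val_lt]
    omega
  cases c
  · simpa using key u hus
  · simpa using key t hts

/-- the cliques of size `j` inside the `K^s` -/
def fam0 (s j : ℕ) : Finset (Finset (Fin s ⊕ Bool)) :=
  (powersetCard j (univ : Finset (Fin s))).image fun S => S.map Function.Embedding.inl

/-- the cliques of size `j` containing the extra vertex `c` -/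
def fam1 (s t u j : ℕ) (c : Bool) : Finset (Finset (Fin s ⊕ Bool)) :=
  (powersetCard (j - 1) (low s t u c)).image fun S => insert (Sum.inr c) (S.map Function.Embedding.inl)

lemma card_fam0 (s j : ℕ) : (fam0 s j).card = s.choose j := by
  unfold fam0
  rw [card_image_of_injective _ (Finset.map_injective _), card_powersetCard, card_univ,
    Fintype.card_fin]

lemma inr_notMem {s : ℕ} (c : Bool) (S : Finset (Fin s)) :
    (Sum.inr c : Fin s ⊕ Bool) ∉ S.map Function.Embedding.inl := by
  simp

lemma card_fam1 (s t u j : ℕ) (hts : t ≤ s) (hus : u ≤ s) (c : Bool) :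
    (fam1 s t u j c).card = (if c then t else u).choose (j - 1) := by
  unfold fam1
  rw [card_image_of_injective, card_powersetCard, low_card s t u hts hus]
  intro S T h
  simp only at h
  have h2 := congrArg (fun X : Finset (Fin s ⊕ Bool) => X.erase (Sum.inr c)) h
  simp only [erase_insert (inr_notMem c _)] at h2
  exact Finset.map_injective _ h2

lemma isClique_map_inl (s t u : ℕ) (S : Finset (Fin s)) :
    (graph s t u).IsClique ((S.map Function.Embedding.inl : Finset (Fin s ⊕ Bool)) : Set (Fin s ⊕ Bool)) := by
  intro x hx y hy hxy
  rw [mem_coe, mem_map] at hx hy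
  obtain ⟨a, _, rfl⟩ := hx
  obtain ⟨b, _, rfl⟩ := hy
  show a ≠ b
  intro hab
  exact hxy (by rw [hab])

lemma cliques_eq (s t u j : ℕ) (hj : 1 ≤ j) :
    {S : Finset (Fin s ⊕ Bool) | (graph s t u).IsNClique j S} =
      ((fam0 s j ∪ (fam1 s t u j true ∪ fam1 s t u j false) : Finset (Finset (Fin s ⊕ Bool))) :
        Set (Finset (Fin s ⊕ Bool))) := by
  ext S
  simp only [Set.mem_ofPred_eq, coe_union, Set.mem_union, mem_coe]
  constructor
  · intro hS
    have hcl := hS.isClique
    have hcard := hS.card_eq
    -- the part of `S` inside the `K^s`
    set T : Finset (Fin s) := univ.filter fun a => Sum.inl a ∈ S with hT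
    by_cases hex : ∃ c, (Sum.inr c : Fin s ⊕ Bool) ∈ S
    · obtain ⟨c, hc⟩ := hex
      have huniq : ∀ d, (Sum.inr d : Fin s ⊕ Bool) ∈ S → d = c := by
        intro d hd
        by_contra hne
        exact hcl (mem_coe.2 hd) (mem_coe.2 hc) (fun h => hne (Sum.inr_injective h))
      have hSeq : S = insert (Sum.inr c) (T.map Function.Embedding.inl) := by
        ext x
        rw [mem_insert, mem_map]
        constructor
        · intro hx
          rcases x with a | d
          · right
            exact ⟨a, by rw [hT, mem_filter]; exact ⟨mem_univ _, hx⟩, rfl⟩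
          · left
            rw [huniq d hx]
        · rintro (rfl | ⟨a, ha, rfl⟩)
          · exact hc
          · rw [hT, mem_filter] at ha
            exact ha.2
      have hTcard : T.card = j - 1 := by
        have := hcard
        rw [hSeq, card_insert_of_notMem (inr_notMem c T), card_map] at this
        omega
      have hTlow : T ⊆ low s t u c := by
        intro a ha
        rw [hT, mem_filter] at ha
        unfold low
        rw [mem_filter]
        refine ⟨mem_univ _, ?_⟩
        exact hcl (mem_coe.2 ha.2) (mem_coe.2 hc) (by simp)
      have hmem : S ∈ fam1 s t u j c := by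
        unfold fam1
        rw [mem_image]
        exact ⟨T, mem_powersetCard.2 ⟨hTlow, hTcard⟩, hSeq.symm⟩
      right
      cases c
      · right; exact hmem
      · left; exact hmem
    · left
      have hSeq : S = T.map Function.Embedding.inl := by
        ext x
        rw [mem_map]
        constructor
        · intro hx
          rcases x with a | d
          · exact ⟨a, by rw [hT, mem_filter]; exact ⟨mem_univ _, hx⟩, rfl⟩
          · exact absurd ⟨d, hx⟩ hex
        · rintro ⟨a, ha, rfl⟩
          rw [hT, mem_filter] at ha
          exact ha.2
      unfold fam0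
      rw [mem_image]
      refine ⟨T, mem_powersetCard.2 ⟨subset_univ _, ?_⟩, hSeq.symm⟩
      rw [hSeq, card_map] at hcard
      exact hcard
  · have key : ∀ c, S ∈ fam1 s t u j c → (graph s t u).IsNClique j S := by
      intro c hS
      unfold fam1 at hS
      rw [mem_image] at hS
      obtain ⟨T, hT, rfl⟩ := hS
      rw [mem_powersetCard] at hT
      rw [SimpleGraph.isNClique_iff]
      constructor
      · rw [coe_insert, SimpleGraph.isClique_insert]
        refine ⟨isClique_map_inl s t u T, ?_⟩
        intro y hy _
        rw [mem_coe, mem_map] at hy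
        obtain ⟨a, ha, rfl⟩ := hy
        have := hT.1 ha
        unfold low at this
        rw [mem_filter] at this
        exact this.2
      · rw [card_insert_of_notMem (inr_notMem c T), card_map, hT.2]
        omega
    rintro (hS | hS | hS)
    · unfold fam0 at hS
      rw [mem_image] at hS
      obtain ⟨T, hT, rfl⟩ := hS
      rw [mem_powersetCard] at hT
      rw [SimpleGraph.isNClique_iff]
      exact ⟨isClique_map_inl s t u T, by rw [card_map]; exact hT.2⟩
    · exact key _ hS
    · exact key _ hS

lemma mem_fam1_iff (s t u j : ℕ) (c d : Bool) (S : Finset (Fin s ⊕ Bool)) (hS : S ∈ fam1 s t u j c) :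
    (Sum.inr d : Fin s ⊕ Bool) ∈ S ↔ d = c := by
  unfold fam1 at hS
  rw [mem_image] at hS
  obtain ⟨T, _, rfl⟩ := hS
  simp

/-- The graph `K^s` with two extra vertices of degrees `t` and `u` has
`(s choose j) + (t choose (j-1)) + (u choose (j-1))` cliques of size `j ≥ 1`. -/
lemma k_graph (s t u j : ℕ) (hj : 1 ≤ j) (hts : t ≤ s) (hus : u ≤ s) :
    k j (graph s t u) = s.choose j + t.choose (j - 1) + u.choose (j - 1) := by
  unfold k
  rw [cliques_eq s t u j hj, Set.ncard_coe_finset]
  have d1 : Disjoint (fam1 s t u j true) (fam1 s t u j false) := by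
    rw [Finset.disjoint_left]
    intro S h1 h2
    have h3 := (mem_fam1_iff s t u j true true S h1).2 rfl
    exact absurd ((mem_fam1_iff s t u j false true S h2).1 h3) (by simp)
  have d0 : Disjoint (fam0 s j) (fam1 s t u j true ∪ fam1 s t u j false) := by
    rw [Finset.disjoint_left]
    intro S h1 h2
    have h4 : ∀ d, (Sum.inr d : Fin s ⊕ Bool) ∉ S := by
      unfold fam0 at h1
      rw [mem_image] at h1
      obtain ⟨T, _, rfl⟩ := h1
      intro d
      exact inr_notMem d T
    rw [mem_union] at h2
    rcases h2 with h2 | h2
    · exact h4 _ ((mem_fam1_iff s t u j true true S h2).2 rfl)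
    · exact h4 _ ((mem_fam1_iff s t u j false false S h2).2 rfl)
  rw [card_union_of_disjoint d0, card_union_of_disjoint d1, card_fam0,
    card_fam1 s t u j hts hus, card_fam1 s t u j hts hus]
  simp only [if_true, Bool.false_eq_true, if_false]
  ring

/-- **The assertion of Q1 fails** for all `3 ≤ p < r` and `t < s` with
`(r-1).choose (p-1) < t.choose (p-2)` (these parameters are admissible: `r ≤ s` and `p - 2 ≤ t`):
some graph with at most `f_p(s, t+1) - 1` copies of `K^p` has more than `f_r(s, t)` copies of `K^r`.
For all `3 ≤ p < r` the condition holds for all large `t`. -/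
theorem result :
    (∀ p r s t : ℕ, 3 ≤ p → p < r → t < s → (r - 1).choose (p - 1) < t.choose (p - 2) →
      (r ≤ s ∧ p - 2 ≤ t) ∧
      ∃ (V : Type) (_ : Fintype V) (G : SimpleGraph V),
        k p G ≤ f p s (t + 1) - 1 ∧ f r s t < k r G) ∧
    (∀ p r : ℕ, 3 ≤ p → p < r → ∃ t₀ : ℕ, ∀ t : ℕ, t₀ ≤ t →
      (r - 1).choose (p - 1) < t.choose (p - 2)) := by
  constructor
  · intro p r s t hp hpr hts h
    have htr : r - 1 ≤ t := by
      by_contra hlt
      push Not at hlt
      have h1 : t.choose (p - 2) ≤ (r - 2).choose (p - 2) := Nat.choose_le_choose _ (by omega)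
      have h2 : (r - 1).choose (p - 1) = (r - 2).choose (p - 2) + (r - 2).choose (p - 1) := by
        obtain ⟨r', rfl⟩ : ∃ r', r = r' + 2 := ⟨r - 2, by omega⟩
        obtain ⟨p', rfl⟩ : ∃ p', p = p' + 2 := ⟨p - 2, by omega⟩
        exact Nat.choose_succ_succ r' p'
      omega
    refine ⟨⟨by omega, by omega⟩, Fin s ⊕ Bool, inferInstance, graph s t (r - 1), ?_, ?_⟩
    · rw [k_graph s t (r - 1) p (by omega) (by omega) (by omega)]
      have h3 : (t + 1).choose (p - 1) = t.choose (p - 2) + t.choose (p - 1) := by
        obtain ⟨p', rfl⟩ : ∃ p', p = p' + 2 := ⟨p - 2, by omega⟩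
        exact Nat.choose_succ_succ t p'
      unfold f
      omega
    · rw [k_graph s t (r - 1) r (by omega) (by omega) (by omega)]
      unfold f
      rw [Nat.choose_self]
      omega
  · intro p r hp hpr
    refine ⟨(r - 1).choose (p - 1) + p, fun t ht => ?_⟩
    have h1 : t ≤ t.choose (p - 2) := by
      have h2 : (1 : ℕ) ≤ p - 2 := by omega
      have h3 : p - 2 ≤ t - 1 := by omega
      rcases Nat.lt_or_ge (p - 2) (t / 2) with h4 | h4
      · calc t = t.choose 1 := (Nat.choose_one_right t).symm
          _ ≤ t.choose (p - 2) := by
            have : ∀ m, 1 ≤ m → m ≤ t / 2 → t.choose 1 ≤ t.choose m := by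
              intro m hm
              induction m, hm using Nat.le_induction with
              | base => intro _; exact le_refl _
              | succ m hm ih =>
                intro h5
                exact le_trans (ih (by omega)) (Nat.choose_le_succ_of_lt_half_left (by omega))
            exact this _ h2 h4.le
      · have h6 : t.choose (t - (p - 2)) = t.choose (p - 2) := Nat.choose_symm (by omega)
        rw [← h6]
        calc t = t.choose 1 := (Nat.choose_one_right t).symm
          _ ≤ t.choose (t - (p - 2)) := by
            have : ∀ m, 1 ≤ m → m ≤ (t + 1) / 2 → t.choose 1 ≤ t.choose m := by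
              intro m hm
              induction m, hm using Nat.le_induction with
              | base => intro _; exact le_refl _
              | succ m hm ih =>
                intro h5
                rcases Nat.lt_or_ge m (t / 2) with h7 | h7
                · exact le_trans (ih (by omega)) (Nat.choose_le_succ_of_lt_half_left h7)
                · have h8 : t.choose (m + 1) = t.choose m := by
                    have : t = 2 * m + 1 := by omega
                    subst this
                    rw [← Nat.choose_symm (by omega : m ≤ 2 * m + 1)]
                    congr 1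
                    omega
                  rw [h8]
                  exact ih (by omega)
            exact this _ (by omega) (by omega)
    omega

end Pool.Agent.Results.MP_8926dc_co.CliqueCounts
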